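import Pool.Agent.H619R2.PM.Main
import Pool.Agent.NPC.Dec
import Pool.Agent.H671R2.PolyAuto

/-!
# The reduction is computable in polynomial time
-/

namespace Pool.Agent.H619R2.PM

open Pool.Agent.NPC

abbrev F3 : Type := List (Lit ℕ × Lit ℕ × Lit ℕ)

theorem UPoly_gg : UPoly gg :=
  UPoly.add (UPoly.mul (UPoly.const 3) (UPoly.length NPC.Poly.id)) (UPoly.const 1)

theorem UPoly_al : UPoly al := by
  have h : UPoly (fun φ : F3 => φ.length) := UPoly.length NPC.Poly.id
  exact UPoly.add (UPoly.add (UPoly.mul (UPoly.mul (UPoly.const 14) UPoly_gg) h)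
    (UPoly.mul (UPoly.const 10) h)) (UPoly.const 1)

@[fun_prop]
theorem Poly_gg : NPC.Poly gg := UPoly_gg.toPoly

@[fun_prop]
theorem Poly_al : NPC.Poly al := UPoly_al.toPoly

theorem poly_rangeN : NPC.Poly (fun φ : F3 => List.range (4 * gg φ)) :=
  UPoly.range (UPoly.mul (UPoly.const 4) UPoly_gg)

theorem poly_rangeAl : NPC.Poly (fun φ : F3 => List.range (al φ)) := UPoly.range UPoly_al

theorem poly_range7 : NPC.Poly (fun φ : F3 => List.range (7 * φ.length)) :=
  UPoly.range (UPoly.mul (UPoly.const 7) (UPoly.length NPC.Poly.id))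

theorem poly_replicate' {α β : Type} [TEnc α] [TEnc β] {n : α → ℕ} {x : α → β}
    (hn : NPC.Poly (fun a => List.range (n a))) (hx : NPC.Poly x) :
    NPC.Poly (fun a => List.replicate (n a) (x a)) :=
  (NPC.Poly.map (F := fun a _ => x a) hn (hx.comp (NPC.Poly.fst NPC.Poly.id))).congr fun a => by
    simp

@[fun_prop]
theorem Poly_lab {α : Type} [TEnc α] {t : α → Bool} {u : α → ℕ} (ht : NPC.Poly t) (hu : NPC.Poly u) :
    NPC.Poly (fun a => lab (t a) (u a)) := by
  unfold lab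
  fun_prop

@[fun_prop]
theorem Poly_S {α : Type} [TEnc α] {t : α → Bool} {u : α → ℕ} (ht : NPC.Poly t) (hu : NPC.Poly u) :
    NPC.Poly (fun a => S (t a) (u a)) := by
  unfold S
  fun_prop

@[fun_prop]
theorem Poly_rlab {α : Type} [TEnc α] {s1 s2 s3 u : α → ℕ} (h1 : NPC.Poly s1) (h2 : NPC.Poly s2)
    (h3 : NPC.Poly s3) (hu : NPC.Poly u) : NPC.Poly (fun a => rlab (s1 a) (s2 a) (s3 a) (u a)) := by
  unfold rlab
  fun_prop

theorem poly_vst (t : Bool) : NPC.Poly (fun φ : F3 => vst (gg φ) (fun _ => t)) := by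
  unfold vst
  exact NPC.Poly.map (F := fun _ u => lab t u) poly_rangeN (by fun_prop)

theorem poly_rvc : NPC.Poly (fun p : (F3 × (Lit ℕ × Lit ℕ × Lit ℕ)) × (Bool × Bool × Bool) =>
    rvc (4 * gg p.1.1) p.1.2 p.2) := by
  unfold rvc rv
  refine NPC.Poly.map (F := fun (p : (F3 × (Lit ℕ × Lit ℕ × Lit ℕ)) × (Bool × Bool × Bool)) u =>
    rlab (S (xor p.1.2.1.1 p.2.1) p.1.2.1.2) (S (xor p.1.2.2.1.1 p.2.2.1) p.1.2.2.1.2)
      (S (xor p.1.2.2.2.1 p.2.2.2) p.1.2.2.2.2) u) (poly_rangeN.comp (by fun_prop)) ?_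
  fun_prop

theorem poly_inst : NPC.Poly inst := by
  unfold inst
  refine NPC.Poly.append (poly_replicate' poly_rangeAl (poly_vst true))
    (NPC.Poly.append (poly_replicate' poly_rangeAl (poly_vst false))
      (NPC.Poly.append (poly_replicate' poly_range7 (NPC.Poly.map (F := fun _ u => u) poly_rangeN
        (NPC.Poly.snd NPC.Poly.id))) ?_))
  exact NPC.Poly.flatMap (F := fun (φ : F3) c => masks.map (rvc (4 * gg φ) c)) NPC.Poly.id
    (NPC.Poly.map (F := fun (p : F3 × (Lit ℕ × Lit ℕ × Lit ℕ)) k => rvc (4 * gg p.1) p.2 k)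
      (NPC.Poly.const masks) poly_rvc)

theorem poly_thr : NPC.Poly thr := by
  unfold thr
  fun_prop

end Pool.Agent.H619R2.PM
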