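import Pool.Agent.H619R2.PM.Part

/-!
# The gadgets of the reduction
-/

namespace Pool.Agent.H619R2.PM

open Module

variable {α : Type}

/-- The space of functions constant on the classes is the space of functions on the quotient. -/
noncomputable def VEquiv (X : Setoid α) : V X ≃ₗ[ℚ] (Quotient X → ℚ) where
  toFun f := fun q => Quotient.lift f.1 (fun u v h => f.2 u v h) q
  invFun g := ⟨fun u => g (Quotient.mk X u), fun u v h => congrArg g (Quotient.sound h)⟩
  map_add' f g := by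
    ext q
    induction q using Quotient.ind with | _ a => rfl
  map_smul' r f := by
    ext q
    induction q using Quotient.ind with | _ a => rfl
  left_inv f := by
    ext u
    rfl
  right_inv g := by
    ext q
    induction q using Quotient.ind with | _ a => rfl

variable [Finite α]

theorem c_eq_card (X : Setoid α) : c X = Nat.card (Quotient X) := by
  classical
  cases nonempty_fintype α
  unfold c
  rw [(VEquiv X).finrank_eq, Module.finrank_pi, Nat.card_eq_fintype_card]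

theorem c_bot : c (⊥ : Setoid α) = Nat.card α := by
  classical
  cases nonempty_fintype α
  unfold c
  have : V (⊥ : Setoid α) = ⊤ := by
    rw [eq_top_iff]
    intro f _ u v h
    have : u = v := h
    rw [this]
  rw [this, finrank_top, Module.finrank_pi, Nat.card_eq_fintype_card]

/-- Disjoint groups of four elements. -/
structure Gad (ι α : Type) where
  a : ι → α
  b : ι → α
  c : ι → α
  d : ι → α
  gd : α → ι
  ga : ∀ x, gd (a x) = x
  gb : ∀ x, gd (b x) = x
  gc : ∀ x, gd (c x) = x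
  gdd : ∀ x, gd (d x) = x
  cover : ∀ u, u = a (gd u) ∨ u = b (gd u) ∨ u = c (gd u) ∨ u = d (gd u)
  ab : ∀ x, a x ≠ b x
  ac : ∀ x, a x ≠ c x
  ad : ∀ x, a x ≠ d x
  bc : ∀ x, b x ≠ c x
  bd : ∀ x, b x ≠ d x
  cd : ∀ x, c x ≠ d x

namespace Gad

variable {ι : Type} (G : Gad ι α)

/-- `Y` is the partition into the pairs `ab`, `cd` of the gadgets `x` with `τ x` and the pairs
`bc`, `da` of the others. -/
def IsSt0 (τ : ι → Bool) (Y : Setoid α) : Prop :=
  ∀ f : α → ℚ, f ∈ V Y ↔ ∀ x, (τ x = true → f (G.a x) = f (G.b x) ∧ f (G.c x) = f (G.d x)) ∧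
    (τ x = false → f (G.b x) = f (G.c x) ∧ f (G.d x) = f (G.a x))

/-- the partition into the gadgets -/
def Q : Setoid α := Setoid.ker G.gd

/-- classes lie inside gadgets -/
def Resp (Y : Setoid α) : Prop := ∀ u v, Y u v → G.gd u = G.gd v

/-- `Y` is the partition into the pairs `ab`, `cd` of the gadgets `x` with `τ x` and the pairs
`bc`, `da` of the others. -/
structure IsSt (τ : ι → Bool) (Y : Setoid α) : Prop where
  mem : G.IsSt0 τ Y
  resp : G.Resp Y
  nac : ∀ x, ¬ Y (G.a x) (G.c x)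

omit [Finite α] in
theorem resp_iff {Y : Setoid α} : G.Resp Y ↔ Y ≤ G.Q := Iff.rfl

omit [Finite α] in
theorem gd_surjective : Function.Surjective G.gd := fun x => ⟨G.a x, G.ga x⟩

include G in
theorem finite_ι : Finite ι := Finite.of_surjective G.gd G.gd_surjective

theorem c_Q : PM.c G.Q = Nat.card ι := by
  rw [c_eq_card]
  exact Nat.card_congr (Setoid.quotientKerEquivOfSurjective _ G.gd_surjective)

omit [Finite α] in
theorem mem_VQ {f : α → ℚ} : f ∈ V G.Q ↔ ∀ x, f (G.a x) = f (G.b x) ∧ f (G.a x) = f (G.c x) ∧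
    f (G.a x) = f (G.d x) := by
  constructor
  · intro h x
    exact ⟨h _ _ (by change G.gd _ = G.gd _; rw [G.ga, G.gb]),
      h _ _ (by change G.gd _ = G.gd _; rw [G.ga, G.gc]),
      h _ _ (by change G.gd _ = G.gd _; rw [G.ga, G.gdd])⟩
  · intro h
    have key : ∀ u, f u = f (G.a (G.gd u)) := by
      intro u
      obtain ⟨h1, h2, h3⟩ := h (G.gd u)
      rcases G.cover u with k | k | k | k
      · rw [← k]
      · rw [h1, ← k]
      · rw [h2, ← k]
      · rw [h3, ← k]
    intro u v huv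
    have huv' : G.gd u = G.gd v := huv
    rw [key u, key v, huv']

variable {P₁ P₂ : Setoid α} (h₁ : G.IsSt0 (fun _ => true) P₁)
  (h₂ : G.IsSt0 (fun _ => false) P₂)

include h₁ h₂

omit [Finite α] in
theorem inf_eq_VQ : V P₁ ⊓ V P₂ = V G.Q := by
  ext f
  rw [Submodule.mem_inf, h₁ f, h₂ f, G.mem_VQ]
  constructor
  · rintro ⟨k1, k2⟩ x
    have k1 := (k1 x).1 rfl
    have k2 := (k2 x).2 rfl
    exact ⟨k1.1, k1.1.trans k2.1, k2.2.symm⟩
  · intro k
    refine ⟨fun x => ⟨fun _ => ⟨(k x).1, ?_⟩, fun h => absurd h (by simp)⟩,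
      fun x => ⟨fun h => absurd h (by simp), fun _ => ⟨?_, (k x).2.2.symm⟩⟩⟩
    · rw [← (k x).2.1, (k x).2.2]
    · rw [← (k x).1, (k x).2.1]

theorem c_add (Y : Setoid α) : PM.c (P₁ ⊔ Y) + PM.c (P₂ ⊔ Y) =
    finrank ℚ ((V P₁ ⊓ V Y) ⊔ (V P₂ ⊓ V Y) : Submodule ℚ (α → ℚ)) +
      finrank ℚ (V G.Q ⊓ V Y : Submodule ℚ (α → ℚ)) := by
  unfold PM.c
  have e : V G.Q ⊓ V Y = (V P₁ ⊓ V Y) ⊓ (V P₂ ⊓ V Y) := by
    rw [← G.inf_eq_VQ h₁ h₂, inf_inf_inf_comm, inf_idem]
  rw [V_sup, V_sup, e, Submodule.finrank_sup_add_finrank_inf_eq]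

theorem c_add_le (Y : Setoid α) :
    PM.c (P₁ ⊔ Y) + PM.c (P₂ ⊔ Y) ≤ PM.c Y + Nat.card ι := by
  rw [G.c_add h₁ h₂, ← G.c_Q]
  exact Nat.add_le_add (Submodule.finrank_mono (sup_le inf_le_right inf_le_right))
    (Submodule.finrank_mono inf_le_left)

/-- Equality in `c_add_le`. -/
theorem tight {Y : Setoid α} (h : PM.c Y + Nat.card ι ≤ PM.c (P₁ ⊔ Y) + PM.c (P₂ ⊔ Y)) :
    V Y = (V P₁ ⊓ V Y) ⊔ (V P₂ ⊓ V Y) ∧ V G.Q ≤ V Y := by
  rw [G.c_add h₁ h₂, ← G.c_Q] at h
  have k1 : (V P₁ ⊓ V Y) ⊔ (V P₂ ⊓ V Y) ≤ V Y := sup_le inf_le_right inf_le_right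
  have k2 : V G.Q ⊓ V Y ≤ V G.Q := inf_le_left
  have k3 := Submodule.finrank_mono k1
  have k4 := Submodule.finrank_mono k2
  unfold PM.c at h
  constructor
  · exact (Submodule.eq_of_le_of_finrank_le k1 (by omega)).symm
  · have : V G.Q ⊓ V Y = V G.Q := Submodule.eq_of_le_of_finrank_le k2 (by omega)
    rw [← this]
    exact inf_le_right

omit [Finite α] in
/-- The alternating sum vanishes. -/
theorem alt {Y : Setoid α} (h : V Y = (V P₁ ⊓ V Y) ⊔ (V P₂ ⊓ V Y)) {f : α → ℚ} (hf : f ∈ V Y)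
    (x : ι) : f (G.a x) - f (G.b x) + f (G.c x) - f (G.d x) = 0 := by
  rw [h, Submodule.mem_sup] at hf
  obtain ⟨f1, hf1, f2, hf2, rfl⟩ := hf
  have k1 := ((h₁ f1).1 (Submodule.mem_inf.1 hf1).1 x).1 rfl
  have k2 := ((h₂ f2).1 (Submodule.mem_inf.1 hf2).1 x).2 rfl
  simp only [Pi.add_apply]
  rw [k1.1, k1.2, k2.1, k2.2]
  ring

omit h₁ h₂ in
/-- The three possible states of a gadget. -/
def State (Y : Setoid α) (x : ι) : Prop :=
  (Y (G.a x) (G.b x) ∧ Y (G.c x) (G.d x) ∧ ¬ Y (G.a x) (G.c x)) ∨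
  (Y (G.b x) (G.c x) ∧ Y (G.d x) (G.a x) ∧ ¬ Y (G.a x) (G.c x)) ∨
  (Y (G.a x) (G.b x) ∧ Y (G.b x) (G.c x) ∧ Y (G.d x) (G.a x) ∧ Y (G.a x) (G.c x))

theorem good {Y : Setoid α} (h : PM.c Y + Nat.card ι ≤ PM.c (P₁ ⊔ Y) + PM.c (P₂ ⊔ Y)) :
    G.Resp Y ∧ ∀ x, G.State Y x := by
  obtain ⟨t1, t2⟩ := G.tight h₁ h₂ h
  constructor
  · intro u v huv
    have : ind G.Q v ∈ V Y := t2 (ind_mem _ _)
    have h1 := this u v huv
    rw [ind_self] at h1
    by_contra hne
    have h2 : ¬ G.Q u v := hne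
    rw [ind_of_not h2] at h1
    exact zero_ne_one h1
  · intro x
    have h1 := G.alt h₁ h₂ t1 (ind_mem Y (G.a x)) x
    have h2 := G.alt h₁ h₂ t1 (ind_mem Y (G.c x)) x
    rw [ind_self] at h1 h2
    have e1 : ∀ {u v}, Y u v → ind Y v u = 1 := fun h => ind_of h
    have e0 : ∀ {u v}, ¬ Y u v → ind Y v u = 0 := fun h => ind_of_not h
    by_cases hac : Y (G.a x) (G.c x)
    · have hca := Y.symm' hac
      rw [e1 hca] at h1
      by_cases hba : Y (G.b x) (G.a x)
      · by_cases hda : Y (G.d x) (G.a x)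
        · exact Or.inr (Or.inr ⟨Y.symm' hba, Y.trans' hba hac, hda, hac⟩)
        · rw [e1 hba, e0 hda] at h1
          norm_num at h1
      · by_cases hda : Y (G.d x) (G.a x)
        · rw [e0 hba, e1 hda] at h1
          norm_num at h1
        · rw [e0 hba, e0 hda] at h1
          norm_num at h1
    · have hca : ¬ Y (G.c x) (G.a x) := fun h => hac (Y.symm' h)
      rw [e0 hca] at h1
      rw [e0 hac] at h2
      by_cases hba : Y (G.b x) (G.a x)
      · have hbc : ¬ Y (G.b x) (G.c x) := fun h => hac (Y.trans' (Y.symm' hba) h)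
        by_cases hdc : Y (G.d x) (G.c x)
        · exact Or.inl ⟨Y.symm' hba, Y.symm' hdc, hac⟩
        · rw [e0 hbc, e0 hdc] at h2
          norm_num at h2
      · by_cases hda : Y (G.d x) (G.a x)
        · have hdc : ¬ Y (G.d x) (G.c x) := fun h => hac (Y.trans' (Y.symm' hda) h)
          by_cases hbc : Y (G.b x) (G.c x)
          · exact Or.inr (Or.inl ⟨hbc, hda, hac⟩)
          · rw [e0 hbc, e0 hdc] at h2
            norm_num at h2
        · rw [e0 hba, e0 hda] at h1
          norm_num at h1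

omit h₁ h₂

/-- the two representatives of the classes of a gadget -/
def rep (Y : Setoid α) (p : ι × Bool) : Quotient Y :=
  Quotient.mk Y (if p.2 then G.c p.1 else G.a p.1)

omit [Finite α] in
theorem rep_surjective {Y : Setoid α} (h : ∀ x, G.State Y x) : Function.Surjective (G.rep Y) := by
  intro q
  induction q using Quotient.ind with | _ u =>
  have key : Y (G.a (G.gd u)) u ∨ Y (G.c (G.gd u)) u := by
    have aux : ∀ {v w : α}, u = w → Y v w → Y v u := by
      intro v w e k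
      rwa [e]
    rcases h (G.gd u) with ⟨k1, k2, -⟩ | ⟨k1, k2, -⟩ | ⟨k1, k2, k3, -⟩ <;>
      rcases G.cover u with e | e | e | e
    · exact Or.inl (aux e (Y.refl' _))
    · exact Or.inl (aux e k1)
    · exact Or.inr (aux e (Y.refl' _))
    · exact Or.inr (aux e k2)
    · exact Or.inl (aux e (Y.refl' _))
    · exact Or.inr (aux e (Y.symm' k1))
    · exact Or.inr (aux e (Y.refl' _))
    · exact Or.inl (aux e (Y.symm' k2))
    · exact Or.inl (aux e (Y.refl' _))
    · exact Or.inl (aux e k1)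
    · exact Or.inr (aux e (Y.refl' _))
    · exact Or.inl (aux e (Y.symm' k3))
  rcases key with k | k
  · exact ⟨(G.gd u, false), Quotient.sound k⟩
  · exact ⟨(G.gd u, true), Quotient.sound k⟩

theorem c_le {Y : Setoid α} (h : ∀ x, G.State Y x) : PM.c Y ≤ 2 * Nat.card ι := by
  have := G.finite_ι
  rw [c_eq_card]
  have := Nat.card_le_card_of_surjective _ (G.rep_surjective h)
  rw [Nat.card_prod] at this
  simp only [Nat.card_eq_fintype_card, Fintype.card_bool] at this ⊢
  omega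

theorem c_lt {Y : Setoid α} (h : ∀ x, G.State Y x) {x : ι} (hx : Y (G.a x) (G.c x)) :
    PM.c Y + 1 ≤ 2 * Nat.card ι := by
  have := G.finite_ι
  rw [c_eq_card]
  have h1 : ¬ Function.Injective (G.rep Y) := by
    intro hinj
    have : G.rep Y (x, false) = G.rep Y (x, true) := Quotient.sound hx
    have := hinj this
    simp at this
  classical
  cases nonempty_fintype α
  cases nonempty_fintype ι
  have := Fintype.card_lt_of_surjective_not_injective _ (G.rep_surjective h) h1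
  rw [Fintype.card_prod, Fintype.card_bool] at this
  rw [Nat.card_eq_fintype_card, Nat.card_eq_fintype_card]
  omega

/-! ### Partitions coding assignments -/

section St

variable {τ : ι → Bool} {Y : Setoid α} (hY : G.IsSt τ Y)

include hY

omit [Finite α] in
theorem IsSt.ab {x : ι} (hx : τ x = true) : Y (G.a x) (G.b x) := by
  by_contra hne
  obtain ⟨f, hf, hf'⟩ := exists_ne_of_not hne
  have := (hY.mem f).1 hf x
  exact hf' (this.1 hx).1

omit [Finite α] in
theorem IsSt.cd {x : ι} (hx : τ x = true) : Y (G.c x) (G.d x) := by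
  by_contra hne
  obtain ⟨f, hf, hf'⟩ := exists_ne_of_not hne
  have := (hY.mem f).1 hf x
  exact hf' (this.1 hx).2

omit [Finite α] in
theorem IsSt.bc {x : ι} (hx : τ x = false) : Y (G.b x) (G.c x) := by
  by_contra hne
  obtain ⟨f, hf, hf'⟩ := exists_ne_of_not hne
  have := (hY.mem f).1 hf x
  exact hf' (this.2 hx).1

omit [Finite α] in
theorem IsSt.da {x : ι} (hx : τ x = false) : Y (G.d x) (G.a x) := by
  by_contra hne
  obtain ⟨f, hf, hf'⟩ := exists_ne_of_not hne
  have := (hY.mem f).1 hf x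
  exact hf' (this.2 hx).2

omit [Finite α] in
theorem IsSt.state (x : ι) : G.State Y x := by
  cases hx : τ x with
  | true => exact Or.inl ⟨IsSt.ab G hY hx, IsSt.cd G hY hx, hY.nac x⟩
  | false => exact Or.inr (Or.inl ⟨IsSt.bc G hY hx, IsSt.da G hY hx, hY.nac x⟩)

theorem IsSt.c_eq : PM.c Y = 2 * Nat.card ι := by
  refine le_antisymm (G.c_le (IsSt.state G hY)) ?_
  have := G.finite_ι
  have hinj : Function.Injective (G.rep Y) := by
    have key : ∀ p : ι × Bool, G.gd (if p.2 then G.c p.1 else G.a p.1) = p.1 := by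
      rintro ⟨x, s⟩
      cases s
      · exact G.ga x
      · exact G.gc x
    rintro ⟨x, s⟩ ⟨x', s'⟩ h
    have h' : Y (if s then G.c x else G.a x) (if s' then G.c x' else G.a x') :=
      Quotient.exact h
    have hx : x = x' := by
      have := hY.resp _ _ h'
      rwa [key (x, s), key (x', s')] at this
    subst hx
    cases s <;> cases s'
    · rfl
    · exact absurd h' (hY.nac x)
    · exact absurd (Y.symm' h') (hY.nac x)
    · rfl
  have := Nat.card_le_card_of_injective _ hinj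
  rw [Nat.card_prod] at this
  rw [c_eq_card]
  simp only [Nat.card_eq_fintype_card, Fintype.card_bool] at this ⊢
  omega

include h₁ h₂ in
theorem IsSt.c_add_eq : PM.c (P₁ ⊔ Y) + PM.c (P₂ ⊔ Y) = 3 * Nat.card ι := by
  classical
  refine le_antisymm ?_ ?_
  · have h1 := G.c_add_le h₁ h₂ Y
    rw [IsSt.c_eq G hY] at h1
    omega
  · have h0 := IsSt.c_eq G hY
    rw [G.c_add h₁ h₂]
    have e1 : V G.Q ⊓ V Y = V G.Q := inf_eq_left.2 (V_anti hY.resp)
    have e2 : V Y ≤ (V P₁ ⊓ V Y) ⊔ (V P₂ ⊓ V Y) := by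
      intro f hf
      have hf' := (hY.mem f).1 hf
      rw [Submodule.mem_sup]
      refine ⟨fun u => if τ (G.gd u) then f u else 0, ?_,
        fun u => if τ (G.gd u) then 0 else f u, ?_, ?_⟩
      · rw [Submodule.mem_inf, h₁ _, hY.mem _]
        constructor
        · intro x
          have := hf' x
          simp only [G.ga, G.gb, G.gc, G.gdd]
          cases hx : τ x with
          | true => simpa [hx] using this
          | false => simp
        · intro x
          have := hf' x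
          simp only [G.ga, G.gb, G.gc, G.gdd]
          cases hx : τ x with
          | true => simpa [hx] using this
          | false => simp
      · rw [Submodule.mem_inf, h₂ _, hY.mem _]
        constructor
        · intro x
          have := hf' x
          simp only [G.ga, G.gb, G.gc, G.gdd]
          cases hx : τ x with
          | true => simp
          | false => simpa [hx] using this
        · intro x
          have := hf' x
          simp only [G.ga, G.gb, G.gc, G.gdd]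
          cases hx : τ x with
          | true => simp
          | false => simpa [hx] using this
      · ext u
        simp only [Pi.add_apply]
        split_ifs <;> simp
    have e3 := Submodule.finrank_mono e2
    rw [e1]
    have e4 : finrank ℚ (V G.Q) = Nat.card ι := G.c_Q
    have e5 : finrank ℚ (V Y) = 2 * Nat.card ι := h0
    omega

end St

/-! ### Reward partitions -/

section Reward

variable {R Y : Setoid α} {s1 e1 s2 e2 s3 e3 : α}
  (hR : V R = K e1 s2 ⊓ K e2 s3 ⊓ K e3 s1)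
  (h1 : G.gd s1 = G.gd e1) (h2 : G.gd s2 = G.gd e2) (h3 : G.gd s3 = G.gd e3)
  (h12 : G.gd s1 ≠ G.gd s2) (h13 : G.gd s1 ≠ G.gd s3) (h23 : G.gd s2 ≠ G.gd s3)

omit [Finite α] in
include hR in
theorem V_reward (Y : Setoid α) : V (R ⊔ Y) = V Y ⊓ K e1 s2 ⊓ K e2 s3 ⊓ K e3 s1 := by
  rw [V_sup, hR, inf_comm, ← inf_assoc, ← inf_assoc]

include hR in
theorem reward_ge (Y : Setoid α) : PM.c Y ≤ PM.c (R ⊔ Y) + 3 := by
  unfold PM.c
  rw [V_reward hR]
  have k1 := finrank_le_inf_K (V Y) e1 s2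
  have k2 := finrank_le_inf_K (V Y ⊓ K e1 s2) e2 s3
  have k3 := finrank_le_inf_K (V Y ⊓ K e1 s2 ⊓ K e2 s3) e3 s1
  omega

include hR in
theorem reward_ge' (y1 : Y s1 e1) (y2 : Y s2 e2) (y3 : Y s3 e3) :
    PM.c Y ≤ PM.c (R ⊔ Y) + 2 := by
  unfold PM.c
  rw [V_reward hR]
  have k1 := finrank_le_inf_K (V Y) e1 s2
  have k2 := finrank_le_inf_K (V Y ⊓ K e1 s2) e2 s3
  have k3 : V Y ⊓ K e1 s2 ⊓ K e2 s3 ≤ K e3 s1 := by
    intro f hf
    rw [Submodule.mem_inf, Submodule.mem_inf, mem_K, mem_K] at hf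
    obtain ⟨⟨hf, f1⟩, f2⟩ := hf
    rw [mem_K, ← hf _ _ y3, ← f2, ← hf _ _ y2, ← f1, ← hf _ _ y1]
  rw [inf_eq_left.2 k3]
  omega

include h1 h2 h3 h12 h13 h23

include hR in
theorem reward_le (hY : G.Resp Y) : PM.c (R ⊔ Y) + 2 ≤ PM.c Y := by
  unfold PM.c
  rw [V_reward hR]
  have qn : ∀ {u v : α}, G.gd u ≠ G.gd v → ind G.Q v u = 0 := fun h => ind_of_not h
  have qe : ∀ {u v : α}, G.gd u = G.gd v → ind G.Q v u = 1 := fun h => ind_of h
  have d_e1s3 : G.gd e1 ≠ G.gd s3 := by rw [← h1]; exact h13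
  have d_e2s3 : G.gd e2 ≠ G.gd s3 := by rw [← h2]; exact h23
  have k1 := finrank_inf_K_lt (V Y) e1 s2 ⟨ind G.Q s1, V_anti hY (ind_mem _ _), by
    rw [qe h1.symm, qn h12.symm]
    exact one_ne_zero⟩
  have k2 := finrank_inf_K_lt (V Y ⊓ K e1 s2) e2 s3 ⟨ind G.Q s3,
    Submodule.mem_inf.2 ⟨V_anti hY (ind_mem _ _), by
      rw [mem_K, qn d_e1s3, qn h23]⟩, by
    rw [qn d_e2s3, ind_self]
    exact zero_ne_one⟩
  have k3 : finrank ℚ (V Y ⊓ K e1 s2 ⊓ K e2 s3 ⊓ K e3 s1 : Submodule ℚ (α → ℚ)) ≤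
    finrank ℚ (V Y ⊓ K e1 s2 ⊓ K e2 s3 : Submodule ℚ (α → ℚ)) := Submodule.finrank_mono inf_le_left
  omega

include hR in
theorem reward_lt (hY : G.Resp Y) (hn : ¬ (Y s1 e1 ∧ Y s2 e2 ∧ Y s3 e3)) :
    PM.c (R ⊔ Y) + 3 ≤ PM.c Y := by
  unfold PM.c
  rw [V_reward hR]
  have qn : ∀ {u v : α}, G.gd u ≠ G.gd v → ind G.Q v u = 0 := fun h => ind_of_not h
  have qe : ∀ {u v : α}, G.gd u = G.gd v → ind G.Q v u = 1 := fun h => ind_of h
  have out : ∀ {u v : α}, G.gd u ≠ G.gd v → ind Y v u = 0 := fun h =>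
    ind_of_not fun h' => h (hY _ _ h')
  have d_e1s3 : G.gd e1 ≠ G.gd s3 := by rw [← h1]; exact h13
  have d_e2s3 : G.gd e2 ≠ G.gd s3 := by rw [← h2]; exact h23
  have d_e2s1 : G.gd e2 ≠ G.gd s1 := by rw [← h2]; exact h12.symm
  have d_e3s1 : G.gd e3 ≠ G.gd s1 := by rw [← h3]; exact h13.symm
  have d_e1s2 : G.gd e1 ≠ G.gd s2 := by rw [← h1]; exact h12
  have d_e3s2 : G.gd e3 ≠ G.gd s2 := by rw [← h3]; exact h23.symm
  have k1 := finrank_inf_K_lt (V Y) e1 s2 ⟨ind G.Q s1, V_anti hY (ind_mem _ _), by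
    rw [qe h1.symm, qn h12.symm]
    exact one_ne_zero⟩
  have k2 := finrank_inf_K_lt (V Y ⊓ K e1 s2) e2 s3 ⟨ind G.Q s3,
    Submodule.mem_inf.2 ⟨V_anti hY (ind_mem _ _), by
      rw [mem_K, qn d_e1s3, qn h23]⟩, by
    rw [qn d_e2s3, ind_self]
    exact zero_ne_one⟩
  have i1 : ind G.Q s1 ∈ V Y := V_anti hY (ind_mem _ _)
  have i2 : ind G.Q s2 ∈ V Y := V_anti hY (ind_mem _ _)
  have q1e1 : ind G.Q s1 e1 = 1 := qe h1.symm
  have q1s2 : ind G.Q s1 s2 = 0 := qn h12.symm
  have q1e2 : ind G.Q s1 e2 = 0 := qn d_e2s1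
  have q1s3 : ind G.Q s1 s3 = 0 := qn h13.symm
  have q1e3 : ind G.Q s1 e3 = 0 := qn d_e3s1
  have q1s1 : ind G.Q s1 s1 = 1 := ind_self _ _
  have q2e1 : ind G.Q s2 e1 = 0 := qn d_e1s2
  have q2s2 : ind G.Q s2 s2 = 1 := ind_self _ _
  have q2e2 : ind G.Q s2 e2 = 1 := qe h2.symm
  have q2s3 : ind G.Q s2 s3 = 0 := qn h23.symm
  have q2e3 : ind G.Q s2 e3 = 0 := qn d_e3s2
  have q2s1 : ind G.Q s2 s1 = 0 := qn h12
  have k3 := finrank_inf_K_lt (V Y ⊓ K e1 s2 ⊓ K e2 s3) e3 s1 (by
    by_cases y1 : Y s1 e1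
    · by_cases y2 : Y s2 e2
      · have y3 : ¬ Y s3 e3 := fun h => hn ⟨y1, y2, h⟩
        refine ⟨ind G.Q s1 + ind G.Q s2 + ind Y s3, ?_, ?_⟩
        · refine Submodule.mem_inf.2 ⟨Submodule.mem_inf.2 ⟨Submodule.add_mem _
            (Submodule.add_mem _ i1 i2) (ind_mem _ _), ?_⟩, ?_⟩
          · rw [mem_K]
            simp only [Pi.add_apply]
            rw [q1e1, q2e1, q1s2, q2s2, out d_e1s3, out h23]
            norm_num
          · rw [mem_K]
            simp only [Pi.add_apply]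
            rw [q1e2, q2e2, q1s3, q2s3, out d_e2s3, ind_self]
            norm_num
        · simp only [Pi.add_apply]
          rw [q1e3, q2e3, q1s1, q2s1, ind_of_not (fun h => y3 (Y.symm' h)), out h13]
          norm_num
      · refine ⟨ind G.Q s1 + ind Y s2, ?_, ?_⟩
        · refine Submodule.mem_inf.2 ⟨Submodule.mem_inf.2 ⟨Submodule.add_mem _
            i1 (ind_mem _ _), ?_⟩, ?_⟩
          · rw [mem_K]
            simp only [Pi.add_apply]
            rw [q1e1, q1s2, out d_e1s2, ind_self]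
            norm_num
          · rw [mem_K]
            simp only [Pi.add_apply]
            rw [q1e2, q1s3, ind_of_not (fun h => y2 (Y.symm' h)), out h23.symm]
        · simp only [Pi.add_apply]
          rw [q1e3, q1s1, out d_e3s2, out h12]
          norm_num
    · refine ⟨ind Y s1, ?_, ?_⟩
      · refine Submodule.mem_inf.2 ⟨Submodule.mem_inf.2 ⟨ind_mem _ _, ?_⟩, ?_⟩
        · rw [mem_K, ind_of_not (fun h => y1 (Y.symm' h)), out h12.symm]
        · rw [mem_K, out d_e2s1, out h13.symm]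
      · rw [ind_self, out d_e3s1]
        exact zero_ne_one)
  omega

include hR in
/-- The number of classes of a reward partition. -/
theorem c_reward (n1 : s1 ≠ e1) : PM.c R + 3 = Nat.card α := by
  have hb : G.Resp (⊥ : Setoid α) := by
    intro u v h
    have : u = v := h
    rw [this]
  have k1 := reward_ge hR ⊥
  have k2 := G.reward_lt hR h1 h2 h3 h12 h13 h23 hb (by
    rintro ⟨h, _⟩
    exact n1 h)
  rw [sup_bot_eq, c_bot] at k1 k2
  omega

end Reward

end Gad

end Pool.Agent.H619R2.PM
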