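import Pool.Agent.H619R2.PM.Reduce

/-!
# The instance and its optimal value
-/

namespace Pool.Agent.H619R2.PM

open Pool.Agent.NPC

/-- a clause is satisfied -/
def Tr (τ : ℕ → Bool) (c : Lit ℕ × Lit ℕ × Lit ℕ) : Prop :=
  τ c.1.2 = c.1.1 ∨ τ c.2.1.2 = c.2.1.1 ∨ τ c.2.2.2 = c.2.2.1

/-- which literals are false -/
def msk (τ : ℕ → Bool) (c : Lit ℕ × Lit ℕ × Lit ℕ) : Bool × Bool × Bool :=
  (xor (τ c.1.2) c.1.1, xor (τ c.2.1.2) c.2.1.1, xor (τ c.2.2.2) c.2.2.1)

theorem msk_ne {τ : ℕ → Bool} {c : Lit ℕ × Lit ℕ × Lit ℕ} :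
    msk τ c ≠ (true, true, true) ↔ Tr τ c := by
  unfold msk Tr
  simp only [ne_eq, Prod.mk.injEq, not_and_or]
  cases τ c.1.2 <;> cases τ c.2.1.2 <;> cases τ c.2.2.2 <;> cases c.1.1 <;> cases c.2.1.1 <;>
    cases c.2.2.1 <;> simp

theorem xor_aux (p k t : Bool) : t = xor p k ↔ k = xor t p := by
  cases p <;> cases k <;> cases t <;> simp

/-- number of groups of elements -/
def gg (φ : List (Lit ℕ × Lit ℕ × Lit ℕ)) : ℕ := 3 * φ.length + 1

/-- multiplicity -/
def al (φ : List (Lit ℕ × Lit ℕ × Lit ℕ)) : ℕ := 14 * gg φ * φ.length + 10 * φ.length + 1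

/-- The partitions of the instance. -/
def inst (φ : List (Lit ℕ × Lit ℕ × Lit ℕ)) : List (List ℕ) :=
  List.replicate (al φ) (vst (gg φ) (fun _ => true)) ++
    (List.replicate (al φ) (vst (gg φ) (fun _ => false)) ++
      (List.replicate (7 * φ.length) ((List.range (4 * gg φ)).map (fun u => u)) ++
        φ.flatMap (fun c => masks.map (rvc (4 * gg φ) c))))

/-- The threshold. -/
def thr (φ : List (Lit ℕ × Lit ℕ × Lit ℕ)) : ℕ :=
  2 * gg φ * al φ + 28 * gg φ * φ.length + 19 * φ.length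

/-- The variables are small. -/
def Small (φ : List (Lit ℕ × Lit ℕ × Lit ℕ)) : Prop :=
  ∀ c ∈ φ, c.1.2 < gg φ ∧ c.2.1.2 < gg φ ∧ c.2.2.2 < gg φ

theorem cost_append (n : ℕ) (A B : List (List ℕ)) (Y : Setoid (Fin n)) :
    cost n (A ++ B) Y = cost n A Y + cost n B Y := by
  simp [cost]

theorem cost_replicate (n k : ℕ) (X : List ℕ) (Y : Setoid (Fin n)) :
    cost n (List.replicate k X) Y = k * dist (part n X) Y := by
  simp [cost]

theorem cost_flatMap (n : ℕ) (φ : List (Lit ℕ × Lit ℕ × Lit ℕ))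
    (F : Lit ℕ × Lit ℕ × Lit ℕ → Bool × Bool × Bool → List ℕ) (Y : Setoid (Fin n)) :
    cost n (φ.flatMap (fun c => masks.map (F c))) Y =
      (φ.map (fun c => (masks.map (fun k => dist (part n (F c k)) Y)).sum)).sum := by
  induction φ with
  | nil => rfl
  | cons c φ ih =>
    rw [List.flatMap_cons, cost_append, ih, List.map_cons, List.sum_cons]
    congr 1

theorem part_range_id (n : ℕ) : part n ((List.range n).map (fun u => u)) = ⊥ := by
  apply Setoid.ext
  intro u v
  rw [part_range]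
  exact Fin.ext_iff.symm

/-- The contribution of a clause. -/
noncomputable def cl (φ : List (Lit ℕ × Lit ℕ × Lit ℕ)) (Y : Setoid (Fin (4 * gg φ)))
    (c : Lit ℕ × Lit ℕ × Lit ℕ) : ℕ :=
  (masks.map (fun k => dist (part (4 * gg φ) (rvc (4 * gg φ) c k)) Y)).sum

theorem cost_inst (φ : List (Lit ℕ × Lit ℕ × Lit ℕ)) (Y : Setoid (Fin (4 * gg φ))) :
    cost (4 * gg φ) (inst φ) Y =
      al φ * (dist (part _ (vst (gg φ) (fun _ => true))) Y +
        dist (part _ (vst (gg φ) (fun _ => false))) Y) +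
      7 * φ.length * dist ⊥ Y + (φ.map (cl φ Y)).sum := by
  unfold inst
  rw [cost_append, cost_append, cost_append, cost_replicate, cost_replicate, cost_replicate,
    cost_flatMap, part_range_id]
  unfold cl
  ring

theorem sum_ge (l : List (Lit ℕ × Lit ℕ × Lit ℕ)) (D : Lit ℕ × Lit ℕ × Lit ℕ → ℕ) (A : ℕ)
    (h : ∀ c ∈ l, A ≤ D c) : l.length * A ≤ (l.map D).sum := by
  induction l with
  | nil => simp
  | cons c l ih =>
    rw [List.map_cons, List.sum_cons, List.length_cons]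
    have h1 := h c List.mem_cons_self
    have h2 := ih fun c hc => h c (List.mem_cons_of_mem _ hc)
    nlinarith

theorem sum_gt (l : List (Lit ℕ × Lit ℕ × Lit ℕ)) (D : Lit ℕ × Lit ℕ × Lit ℕ → ℕ) (A : ℕ)
    (h : ∀ c ∈ l, A ≤ D c) (h' : ∃ c ∈ l, A + 2 ≤ D c) : l.length * A + 2 ≤ (l.map D).sum := by
  induction l with
  | nil => simp at h'
  | cons c l ih =>
    rw [List.map_cons, List.sum_cons, List.length_cons]
    have h1 := h c List.mem_cons_self
    have h3 := sum_ge l D A fun c hc => h c (List.mem_cons_of_mem _ hc)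
    obtain ⟨d, hd, hd'⟩ := h'
    rcases List.mem_cons.1 hd with rfl | hd
    · nlinarith
    · have h2 := ih (fun c hc => h c (List.mem_cons_of_mem _ hc)) ⟨d, hd, hd'⟩
      nlinarith

theorem sum_le (l : List (Lit ℕ × Lit ℕ × Lit ℕ)) (D : Lit ℕ × Lit ℕ × Lit ℕ → ℕ) (A : ℕ)
    (h : ∀ c ∈ l, D c ≤ A) : (l.map D).sum ≤ l.length * A := by
  induction l with
  | nil => simp
  | cons c l ih =>
    rw [List.map_cons, List.sum_cons, List.length_cons]
    have h1 := h c List.mem_cons_self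
    have h2 := ih fun c hc => h c (List.mem_cons_of_mem _ hc)
    nlinarith

theorem dist_bot (φ : List (Lit ℕ × Lit ℕ × Lit ℕ)) (Y : Setoid (Fin (4 * gg φ))) :
    dist ⊥ Y + c Y = 4 * gg φ := by
  have h := dist_eq ⊥ Y
  rw [bot_sup_eq, c_bot, Nat.card_eq_fintype_card, Fintype.card_fin] at h
  omega

/-- A satisfying assignment gives a cheap partition. -/
theorem upper (φ : List (Lit ℕ × Lit ℕ × Lit ℕ)) (hd : Distinct3 φ) (hs : Small φ) (τ : ℕ → Bool)
    (hτ : ∀ c ∈ φ, Tr τ c) : cost (4 * gg φ) (inst φ) (part _ (vst (gg φ) τ)) ≤ thr φ := by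
  have hY := isSt_vst (gg φ) τ
  have h₁ := isSt_vst (gg φ) (fun _ => true)
  have h₂ := isSt_vst (gg φ) (fun _ => false)
  set Y := part (4 * gg φ) (vst (gg φ) τ) with hYdef
  have cY := Gad.IsSt.c_eq _ hY
  have c1 := Gad.IsSt.c_eq _ h₁
  have c2 := Gad.IsSt.c_eq _ h₂
  have c12 := Gad.IsSt.c_add_eq _ h₁.mem h₂.mem hY
  have d1 := dist_eq (part _ (vst (gg φ) (fun _ => true))) Y
  have d2 := dist_eq (part _ (vst (gg φ) (fun _ => false))) Y
  have d0 := dist_bot φ Y
  rw [Nat.card_eq_fintype_card, Fintype.card_fin] at cY c1 c2 c12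
  have hcl : ∀ c ∈ φ, cl φ Y c + 2 ≤ 7 * (2 * gg φ + 3) := by
    intro c hc
    obtain ⟨b1, b2, b3⟩ := hs c hc
    obtain ⟨n12, n13, n23⟩ := hd c hc
    refine masks_le _ (msk τ c) _ (fun k => ?_) ?_ (msk_ne.2 (hτ c hc))
    · have := dist_rv_le (xor c.1.1 k.1) (xor c.2.1.1 k.2.1) (xor c.2.2.1 k.2.2) b1 b2 b3
        n12 n13 n23 Y
      unfold rvc
      omega
    · have key : ∀ {x : ℕ} (hx : x < gg φ) (t : Bool), τ x = t → Y (sE t hx) (eE t hx) := by
        intro x hx t ht
        cases t with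
        | true => exact Gad.IsSt.ab _ hY (x := ⟨x, hx⟩) ht
        | false => exact Gad.IsSt.bc _ hY (x := ⟨x, hx⟩) ht
      have := dist_rv_le' (Y := Y) (xor c.1.1 (msk τ c).1) (xor c.2.1.1 (msk τ c).2.1)
        (xor c.2.2.1 (msk τ c).2.2) b1 b2 b3 n12 n13 n23
        (key b1 _ ((xor_aux _ _ _).2 rfl)) (key b2 _ ((xor_aux _ _ _).2 rfl))
        (key b3 _ ((xor_aux _ _ _).2 rfl))
      unfold rvc
      omega
  have hsum := sum_le φ (cl φ Y) (14 * gg φ + 19) (fun c hc => by
    have := hcl c hc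
    omega)
  rw [cost_inst]
  unfold thr
  have e1 : dist (part _ (vst (gg φ) (fun _ => true))) Y +
        dist (part _ (vst (gg φ) (fun _ => false))) Y = 2 * gg φ := by omega
  have e0 : dist ⊥ Y = 2 * gg φ := by omega
  rw [e1, e0]
  nlinarith

/-- A partition that does not give a satisfying assignment is expensive. -/
theorem lower (φ : List (Lit ℕ × Lit ℕ × Lit ℕ)) (hd : Distinct3 φ) (hs : Small φ)
    (Y : Setoid (Fin (4 * gg φ))) (τ : ℕ → Bool)
    (hτY : ∀ x : Fin (gg φ), τ x = true ↔ Y ((gad (gg φ)).a x) ((gad (gg φ)).b x))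
    (hτ : ∃ c ∈ φ, ¬ Tr τ c) : thr φ < cost (4 * gg φ) (inst φ) Y := by
  have h₁ := isSt_vst (gg φ) (fun _ => true)
  have h₂ := isSt_vst (gg φ) (fun _ => false)
  have c1 := Gad.IsSt.c_eq _ h₁
  have c2 := Gad.IsSt.c_eq _ h₂
  have d1 := dist_eq (part _ (vst (gg φ) (fun _ => true))) Y
  have d2 := dist_eq (part _ (vst (gg φ) (fun _ => false))) Y
  have d0 := dist_bot φ Y
  rw [Nat.card_eq_fintype_card, Fintype.card_fin] at c1 c2
  have hlen : 1 ≤ φ.length := by
    obtain ⟨c, hc, _⟩ := hτ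
    exact List.length_pos_of_mem hc
  rw [cost_inst]
  by_cases ht : c Y + Nat.card (Fin (gg φ)) ≤
      c (part _ (vst (gg φ) (fun _ => true)) ⊔ Y) + c (part _ (vst (gg φ) (fun _ => false)) ⊔ Y)
  · obtain ⟨hR, hst⟩ := (gad (gg φ)).good h₁.mem h₂.mem ht
    have c12 := (gad (gg φ)).c_add_le h₁.mem h₂.mem Y
    rw [Nat.card_eq_fintype_card, Fintype.card_fin] at c12 ht
    have e1 : dist (part _ (vst (gg φ) (fun _ => true))) Y +
        dist (part _ (vst (gg φ) (fun _ => false))) Y = 2 * gg φ := by omega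
    rw [e1]
    by_cases hT : ∃ x, Y ((gad (gg φ)).a x) ((gad (gg φ)).c x)
    · obtain ⟨x, hx⟩ := hT
      have cY := (gad (gg φ)).c_lt hst hx
      rw [Nat.card_eq_fintype_card, Fintype.card_fin] at cY
      have hcl : ∀ c ∈ φ, 7 * (2 * gg φ + 2) ≤ cl φ Y c := by
        intro c hc
        obtain ⟨b1, b2, b3⟩ := hs c hc
        obtain ⟨n12, n13, n23⟩ := hd c hc
        refine masks_ge' _ _ (fun k _ => ?_)
        have := dist_rv_ge (xor c.1.1 k.1) (xor c.2.1.1 k.2.1) (xor c.2.2.1 k.2.2) b1 b2 b3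
          n12 n13 n23 hR
        unfold rvc
        omega
      have hsum := sum_ge φ (cl φ Y) _ hcl
      have e0 : 2 * gg φ + 1 ≤ dist ⊥ Y := by omega
      have e0' := Nat.mul_le_mul_left (7 * φ.length) e0
      unfold thr
      nlinarith
    · have hT' : ∀ x, ¬ Y ((gad (gg φ)).a x) ((gad (gg φ)).c x) := fun x hx => hT ⟨x, hx⟩
      have cY := (gad (gg φ)).c_le hst
      rw [Nat.card_eq_fintype_card, Fintype.card_fin] at cY
      have key : ∀ {x : ℕ} (hx : x < gg φ) (t : Bool), Y (sE t hx) (eE t hx) → τ x = t := by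
        intro x hx t h
        cases t with
        | true => exact (hτY ⟨x, hx⟩).2 h
        | false =>
          have h' : Y ((gad (gg φ)).b ⟨x, hx⟩) ((gad (gg φ)).c ⟨x, hx⟩) := h
          cases ht : τ x with
          | false => rfl
          | true => exact absurd (Y.trans' ((hτY ⟨x, hx⟩).1 ht) h') (hT' _)
      have hgen : ∀ c ∈ φ, ∀ k, k ≠ msk τ c →
          2 * gg φ + 3 ≤ dist (part (4 * gg φ) (rvc (4 * gg φ) c k)) Y := by
        intro c hc k hk
        obtain ⟨b1, b2, b3⟩ := hs c hc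
        obtain ⟨n12, n13, n23⟩ := hd c hc
        have := dist_rv_gt (xor c.1.1 k.1) (xor c.2.1.1 k.2.1) (xor c.2.2.1 k.2.2) b1 b2 b3
          n12 n13 n23 hR (by
            rintro ⟨y1, y2, y3⟩
            apply hk
            have k1 := (xor_aux _ _ _).1 (key b1 _ y1)
            have k2 := (xor_aux _ _ _).1 (key b2 _ y2)
            have k3 := (xor_aux _ _ _).1 (key b3 _ y3)
            exact Prod.ext k1 (Prod.ext k2 k3))
        unfold rvc
        omega
      have hcl : ∀ c ∈ φ, 14 * gg φ + 19 ≤ cl φ Y c := by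
        intro c hc
        have h7 := masks_ge (fun k => dist (part (4 * gg φ) (rvc (4 * gg φ) c k)) Y) (msk τ c)
          (2 * gg φ + 3) (hgen c hc) (fun k => by
            obtain ⟨b1, b2, b3⟩ := hs c hc
            obtain ⟨n12, n13, n23⟩ := hd c hc
            have := dist_rv_ge (xor c.1.1 k.1) (xor c.2.1.1 k.2.1) (xor c.2.2.1 k.2.2) b1 b2 b3
              n12 n13 n23 hR
            unfold rvc
            omega)
        unfold cl
        omega
      have hcl' : ∃ c ∈ φ, 14 * gg φ + 19 + 2 ≤ cl φ Y c := by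
        obtain ⟨c, hc, hc'⟩ := hτ
        refine ⟨c, hc, ?_⟩
        have h7 := masks_ge' (fun k => dist (part (4 * gg φ) (rvc (4 * gg φ) c k)) Y)
          (2 * gg φ + 3) (fun k hk => hgen c hc k (by
            have : msk τ c = (true, true, true) := by
              by_contra h
              exact hc' (msk_ne.1 h)
            rwa [this]))
        unfold cl
        omega
      have hsum := sum_gt φ (cl φ Y) _ hcl hcl'
      have e0 : 2 * gg φ ≤ dist ⊥ Y := by omega
      have e0' := Nat.mul_le_mul_left (7 * φ.length) e0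
      unfold thr
      nlinarith
  · rw [Nat.card_eq_fintype_card, Fintype.card_fin] at ht
    have e1 : 2 * gg φ + 2 ≤ dist (part _ (vst (gg φ) (fun _ => true))) Y +
        dist (part _ (vst (gg φ) (fun _ => false))) Y := by omega
    have e2 := Nat.mul_le_mul_left (al φ) e1
    have e3 : 28 * gg φ * φ.length + 19 * φ.length < 2 * al φ := by
      unfold al
      nlinarith
    have e5 : al φ * (2 * gg φ + 2) = 2 * gg φ * al φ + 2 * al φ := by ring
    unfold thr
    omega

end Pool.Agent.H619R2.PM
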