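import Mathlib

/-!
# The split-and-join distance of partitions

A partition of `α` is a `Setoid α`.  `dist X Y` is the least number of operations (splitting a class
into two, joining two classes) leading from `X` to `Y`.  We prove
`dist X Y = c X + c Y - 2 * c (X ⊔ Y)` where `c` is the number of classes (defined here as the
dimension of the space of functions that are constant on the classes).
-/

namespace Pool.Agent.H619R2.PM

open Module

variable {α : Type}

/-- `Y` is obtained from `X` by replacing one class by two nonempty classes whose union is that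
class. -/
def Split (X Y : Setoid α) : Prop :=
  ∃ A ∈ X.classes, ∃ B C : Set α, B.Nonempty ∧ C.Nonempty ∧ Disjoint B C ∧ B ∪ C = A ∧
    Y.classes = insert B (insert C (X.classes \ {A}))

/-- `Y` is obtained from `X` by replacing two (different) classes by their union. -/
def Join (X Y : Setoid α) : Prop :=
  ∃ A ∈ X.classes, ∃ B ∈ X.classes, A ≠ B ∧ Y.classes = insert (A ∪ B) (X.classes \ {A, B})

/-- `Y` can be reached from `X` by exactly `k` operations. -/
def Reach : ℕ → Setoid α → Setoid α → Prop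
  | 0, X, Y => X = Y
  | k + 1, X, Y => ∃ Z, (Split X Z ∨ Join X Z) ∧ Reach k Z Y

/-- The least number of operations turning `X` into `Y`. -/
noncomputable def dist (X Y : Setoid α) : ℕ := sInf {k | Reach k X Y}

/-! ### The operations -/

/-- merging the classes of `a` and `b` -/
def merge (X : Setoid α) (a b : α) : Setoid α where
  r u v := X u v ∨ (X u a ∧ X v b) ∨ (X u b ∧ X v a)
  iseqv := by
    refine ⟨fun u => Or.inl (X.refl' u), ?_, ?_⟩
    · rintro u v (h | ⟨h, h'⟩ | ⟨h, h'⟩)
      · exact Or.inl (X.symm' h)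
      · exact Or.inr (Or.inr ⟨h', h⟩)
      · exact Or.inr (Or.inl ⟨h', h⟩)
    · rintro u v w (h | ⟨h, h'⟩ | ⟨h, h'⟩) (k | ⟨k, k'⟩ | ⟨k, k'⟩)
      · exact Or.inl (X.trans' h k)
      · exact Or.inr (Or.inl ⟨X.trans' h k, k'⟩)
      · exact Or.inr (Or.inr ⟨X.trans' h k, k'⟩)
      · exact Or.inr (Or.inl ⟨h, X.trans' (X.symm' k) h'⟩)
      · exact Or.inr (Or.inl ⟨h, k'⟩)
      · exact Or.inl (X.trans' h (X.symm' k'))
      · exact Or.inr (Or.inr ⟨h, X.trans' (X.symm' k) h'⟩)
      · exact Or.inl (X.trans' h (X.symm' k'))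
      · exact Or.inr (Or.inr ⟨h, k'⟩)

theorem merge_apply (X : Setoid α) (a b u v : α) :
    merge X a b u v ↔ X u v ∨ (X u a ∧ X v b) ∨ (X u b ∧ X v a) := Iff.rfl

theorem le_merge (X : Setoid α) (a b : α) : X ≤ merge X a b := fun _ _ h => Or.inl h

theorem merge_le {X Z : Setoid α} {a b : α} (h : X ≤ Z) (hab : Z a b) : merge X a b ≤ Z := by
  rintro u v (k | ⟨k, k'⟩ | ⟨k, k'⟩)
  · exact h k
  · exact Z.trans' (h k) (Z.trans' hab (Z.symm' (h k')))
  · exact Z.trans' (h k) (Z.trans' (Z.symm' hab) (Z.symm' (h k')))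

theorem join_merge {X : Setoid α} {a b : α} (hab : ¬ X a b) : Join X (merge X a b) := by
  refine ⟨{x | X x a}, X.mem_classes a, {x | X x b}, X.mem_classes b, ?_, ?_⟩
  · intro h
    exact hab (by have : a ∈ {x | X x b} := h ▸ X.refl' a; exact this)
  · have key : ∀ y, X y a ∨ X y b → {x | merge X a b x y} = {x | X x a} ∪ {x | X x b} := by
      intro y hy
      ext x
      simp only [Set.mem_ofPred_eq, Set.mem_union, merge_apply]
      constructor
      · rintro (h | ⟨h, _⟩ | ⟨h, _⟩)
        · rcases hy with hy | hy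
          · exact Or.inl (X.trans' h hy)
          · exact Or.inr (X.trans' h hy)
        · exact Or.inl h
        · exact Or.inr h
      · rintro (h | h)
        · rcases hy with hy | hy
          · exact Or.inl (X.trans' h (X.symm' hy))
          · exact Or.inr (Or.inl ⟨h, hy⟩)
        · rcases hy with hy | hy
          · exact Or.inr (Or.inr ⟨h, hy⟩)
          · exact Or.inl (X.trans' h (X.symm' hy))
    have key2 : ∀ y, ¬ (X y a ∨ X y b) → {x | merge X a b x y} = {x | X x y} := by
      intro y hy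
      rw [not_or] at hy
      ext x
      simp only [Set.mem_ofPred_eq, merge_apply]
      constructor
      · rintro (h | ⟨_, h⟩ | ⟨_, h⟩)
        · exact h
        · exact absurd h hy.2
        · exact absurd h hy.1
      · exact Or.inl
    ext s
    simp only [Set.mem_insert_iff, Set.mem_sdiff, Set.mem_singleton_iff, not_or]
    constructor
    · rintro ⟨y, rfl⟩
      by_cases hy : X y a ∨ X y b
      · exact Or.inl (key y hy)
      · refine Or.inr ⟨?_, ?_, ?_⟩
        · exact ⟨y, key2 y hy⟩
        · intro h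
          have h1 : y ∈ {x | merge X a b x y} := (merge X a b).refl' y
          rw [h] at h1
          exact hy (Or.inl h1)
        · intro h
          have h1 : y ∈ {x | merge X a b x y} := (merge X a b).refl' y
          rw [h] at h1
          exact hy (Or.inr h1)
    · rintro (rfl | ⟨⟨y, rfl⟩, h1, h2⟩)
      · exact ⟨a, (key a (Or.inl (X.refl' a))).symm⟩
      · refine ⟨y, (key2 y ?_).symm⟩
        rintro (h | h)
        · apply h1
          ext x
          exact ⟨fun k => X.trans' k h, fun k => X.trans' k (X.symm' h)⟩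
        · apply h2
          ext x
          exact ⟨fun k => X.trans' k h, fun k => X.trans' k (X.symm' h)⟩

theorem Join.exists_merge {X Y : Setoid α} (h : Join X Y) :
    ∃ a b, ¬ X a b ∧ Y = merge X a b := by
  obtain ⟨A, ⟨a, rfl⟩, B, ⟨b, rfl⟩, hne, hY⟩ := h
  have hab : ¬ X a b := by
    intro h
    apply hne
    ext x
    exact ⟨fun k => X.trans' k h, fun k => X.trans' k (X.symm' h)⟩
  refine ⟨a, b, hab, ?_⟩
  rw [Setoid.classes_inj, hY]
  obtain ⟨A', ⟨a', hA'⟩, B', ⟨b', hB'⟩, hne', hY'⟩ := join_merge hab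
  -- recompute through the relation
  have : ∀ u v, Y u v ↔ merge X a b u v := by
    intro u v
    rw [Setoid.rel_iff_exists_classes, hY, merge_apply]
    constructor
    · rintro ⟨s, hs, hu, hv⟩
      rcases hs with rfl | ⟨hs, _⟩
      · rcases hu with hu | hu <;> rcases hv with hv | hv
        · exact Or.inl (X.trans' hu (X.symm' hv))
        · exact Or.inr (Or.inl ⟨hu, hv⟩)
        · exact Or.inr (Or.inr ⟨hu, hv⟩)
        · exact Or.inl (X.trans' hu (X.symm' hv))
      · exact Or.inl (X.rel_iff_exists_classes.2 ⟨s, hs, hu, hv⟩)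
    · rintro (h | ⟨h, h'⟩ | ⟨h, h'⟩)
      · by_cases h1 : X u a
        · exact ⟨_, Or.inl rfl, Or.inl h1, Or.inl (X.trans' (X.symm' h) h1)⟩
        · by_cases h2 : X u b
          · exact ⟨_, Or.inl rfl, Or.inr h2, Or.inr (X.trans' (X.symm' h) h2)⟩
          · refine ⟨{x | X x v}, Or.inr ⟨X.mem_classes v, ?_⟩, h, X.refl' v⟩
            simp only [Set.mem_insert_iff, Set.mem_singleton_iff, not_or]
            constructor
            · intro k
              have : u ∈ {x | X x v} := h
              rw [k] at this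
              exact h1 this
            · intro k
              have : u ∈ {x | X x v} := h
              rw [k] at this
              exact h2 this
      · exact ⟨_, Or.inl rfl, Or.inl h, Or.inr h'⟩
      · exact ⟨_, Or.inl rfl, Or.inr h, Or.inl h'⟩
  have hYm : Y = merge X a b := Setoid.ext this
  rw [← hYm, hY]

theorem Join.split {X Y : Setoid α} (h : Join X Y) : Split Y X := by
  obtain ⟨A, hA, B, hB, hne, hY⟩ := h
  have hAn : A.Nonempty := Set.nonempty_iff_ne_empty.2 fun h => Setoid.empty_notMem_classes (h ▸ hA)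
  have hBn : B.Nonempty := Set.nonempty_iff_ne_empty.2 fun h => Setoid.empty_notMem_classes (h ▸ hB)
  have hdis : Disjoint A B := by
    rw [Set.disjoint_left]
    intro x hx hx'
    exact hne (Setoid.eq_of_mem_classes hA hx hB hx')
  refine ⟨A ∪ B, by rw [hY]; exact Set.mem_insert _ _, A, B, hAn, hBn, hdis, rfl, ?_⟩
  have hAB : A ∪ B ∉ X.classes := by
    intro h
    obtain ⟨x, hx⟩ := hAn
    obtain ⟨y, hy⟩ := hBn
    have h1 := Setoid.eq_of_mem_classes h (Or.inl hx) hA hx
    have h2 := Setoid.eq_of_mem_classes h (Or.inr hy) hB hy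
    exact hne (h1.symm.trans h2)
  ext s
  rw [hY]
  simp only [Set.mem_insert_iff, Set.mem_sdiff, Set.mem_singleton_iff, not_or]
  constructor
  · intro hs
    by_cases h1 : s = A
    · exact Or.inl h1
    · by_cases h2 : s = B
      · exact Or.inr (Or.inl h2)
      · exact Or.inr (Or.inr ⟨Or.inr ⟨hs, h1, h2⟩, fun h => hAB (h ▸ hs)⟩)
  · rintro (rfl | rfl | ⟨h | h, h'⟩)
    · exact hA
    · exact hB
    · exact absurd h h'
    · exact h.1

theorem Split.join {X Y : Setoid α} (h : Split X Y) : Join Y X := by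
  obtain ⟨A, hA, B, C, hB, hC, hdis, hBC, hY⟩ := h
  have hne : B ≠ C := by
    rintro rfl
    obtain ⟨x, hx⟩ := hB
    exact Set.disjoint_left.1 hdis hx hx
  have hBA : B ≠ A := by
    rintro rfl
    obtain ⟨x, hx⟩ := hC
    exact Set.disjoint_left.1 hdis (hBC ▸ Or.inr hx) hx
  have hCA : C ≠ A := by
    rintro rfl
    obtain ⟨x, hx⟩ := hB
    exact Set.disjoint_left.1 hdis hx (hBC ▸ Or.inl hx)
  have hBX : B ∉ X.classes := by
    intro h
    obtain ⟨x, hx⟩ := hB
    exact hBA (Setoid.eq_of_mem_classes h hx hA (hBC ▸ Or.inl hx))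
  have hCX : C ∉ X.classes := by
    intro h
    obtain ⟨x, hx⟩ := hC
    exact hCA (Setoid.eq_of_mem_classes h hx hA (hBC ▸ Or.inr hx))
  refine ⟨B, by rw [hY]; exact Or.inl rfl, C, by rw [hY]; exact Or.inr (Or.inl rfl), hne, ?_⟩
  ext s
  rw [hY]
  simp only [Set.mem_insert_iff, Set.mem_sdiff, Set.mem_singleton_iff, not_or, hBC]
  constructor
  · intro hs
    by_cases h1 : s = A
    · exact Or.inl h1
    · exact Or.inr ⟨Or.inr (Or.inr ⟨hs, h1⟩), fun h => hBX (h ▸ hs), fun h => hCX (h ▸ hs)⟩
  · rintro (rfl | ⟨h | h | h, h1, h2⟩)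
    · exact hA
    · exact absurd h h1
    · exact absurd h h2
    · exact h.1

/-! ### The space of functions constant on the classes -/

/-- The functions that are constant on the classes of `X`. -/
def V (X : Setoid α) : Submodule ℚ (α → ℚ) where
  carrier := {f | ∀ u v, X u v → f u = f v}
  add_mem' := by
    intro f g hf hg u v h
    simp only [Pi.add_apply, hf u v h, hg u v h]
  zero_mem' := fun _ _ _ => rfl
  smul_mem' := by
    intro r f hf u v h
    simp only [Pi.smul_apply, hf u v h]

theorem mem_V {X : Setoid α} {f : α → ℚ} : f ∈ V X ↔ ∀ u v, X u v → f u = f v := Iff.rfl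

theorem mem_V' {X : Setoid α} {f : α → ℚ} : f ∈ V X ↔ X ≤ Setoid.ker f := Iff.rfl

theorem V_anti {X Y : Setoid α} (h : X ≤ Y) : V Y ≤ V X := fun _ hf u v k => hf u v (h k)

theorem V_sup (X Y : Setoid α) : V (X ⊔ Y) = V X ⊓ V Y := by
  ext f
  rw [Submodule.mem_inf, mem_V', mem_V', mem_V', sup_le_iff]

/-- The functions with the same value at `a` and `b`. -/
def K (a b : α) : Submodule ℚ (α → ℚ) :=
  LinearMap.ker ((LinearMap.proj a : (α → ℚ) →ₗ[ℚ] ℚ) - LinearMap.proj b)

theorem mem_K {a b : α} {f : α → ℚ} : f ∈ K a b ↔ f a = f b := by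
  simp [K, sub_eq_zero]

theorem V_merge (X : Setoid α) (a b : α) : V (merge X a b) = V X ⊓ K a b := by
  ext f
  rw [Submodule.mem_inf, mem_K, mem_V, mem_V]
  constructor
  · intro h
    exact ⟨fun u v k => h u v (Or.inl k), h a b (Or.inr (Or.inl ⟨X.refl' a, X.refl' b⟩))⟩
  · rintro ⟨h, hab⟩ u v (k | ⟨k, k'⟩ | ⟨k, k'⟩)
    · exact h u v k
    · rw [h _ _ k, h _ _ k', hab]
    · rw [h _ _ k, h _ _ k', hab]

open Classical in
/-- The indicator function of the class of `a`. -/
noncomputable def ind (X : Setoid α) (a : α) : α → ℚ := fun u => if X u a then 1 else 0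

theorem ind_mem (X : Setoid α) (a : α) : ind X a ∈ V X := by
  intro u v h
  unfold ind
  by_cases h1 : X u a
  · rw [if_pos h1, if_pos (X.trans' (X.symm' h) h1)]
  · rw [if_neg h1, if_neg fun h2 => h1 (X.trans' h h2)]

theorem ind_self (X : Setoid α) (a : α) : ind X a a = 1 := if_pos (X.refl' a)

theorem ind_of {X : Setoid α} {a u : α} (h : X u a) : ind X a u = 1 := if_pos h

theorem ind_of_not {X : Setoid α} {a u : α} (h : ¬ X u a) : ind X a u = 0 := if_neg h

theorem exists_ne_of_not {X : Setoid α} {a b : α} (h : ¬ X a b) : ∃ f ∈ V X, f a ≠ f b :=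
  ⟨ind X b, ind_mem X b, by rw [ind_self, ind_of_not h]; exact zero_ne_one⟩

variable [Finite α]

/-- The number of classes (see `c_eq_card`). -/
noncomputable def c (X : Setoid α) : ℕ := finrank ℚ (V X)

theorem finrank_inf_K (W : Submodule ℚ (α → ℚ)) (a b : α) :
    finrank ℚ (LinearMap.range (((LinearMap.proj a : (α → ℚ) →ₗ[ℚ] ℚ) -
      LinearMap.proj b).domRestrict W)) + finrank ℚ (W ⊓ K a b : Submodule ℚ (α → ℚ)) =
      finrank ℚ W := by
  have h := LinearMap.finrank_range_add_finrank_ker (((LinearMap.proj a : (α → ℚ) →ₗ[ℚ] ℚ) -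
      LinearMap.proj b).domRestrict W)
  rw [← h]
  congr 1
  rw [LinearMap.domRestrict, LinearMap.ker_comp]
  have h2 : Submodule.map W.subtype (Submodule.comap W.subtype (K a b)) = W ⊓ K a b :=
    Submodule.map_comap_subtype _ _
  rw [← h2]
  exact Submodule.finrank_map_subtype_eq _ _

theorem finrank_le_inf_K (W : Submodule ℚ (α → ℚ)) (a b : α) :
    finrank ℚ W ≤ finrank ℚ (W ⊓ K a b : Submodule ℚ (α → ℚ)) + 1 := by
  rw [← finrank_inf_K W a b]
  have : finrank ℚ (LinearMap.range (((LinearMap.proj a : (α → ℚ) →ₗ[ℚ] ℚ) -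
      LinearMap.proj b).domRestrict W)) ≤ finrank ℚ ℚ := Submodule.finrank_le _
  rw [finrank_self] at this
  omega

theorem finrank_inf_K_lt (W : Submodule ℚ (α → ℚ)) (a b : α) (h : ∃ f ∈ W, f a ≠ f b) :
    finrank ℚ (W ⊓ K a b : Submodule ℚ (α → ℚ)) + 1 = finrank ℚ W := by
  refine le_antisymm ?_ (finrank_le_inf_K W a b)
  rw [← finrank_inf_K W a b]
  have : 0 < finrank ℚ (LinearMap.range (((LinearMap.proj a : (α → ℚ) →ₗ[ℚ] ℚ) -
      LinearMap.proj b).domRestrict W)) := by
    rw [finrank_pos_iff, Submodule.nontrivial_iff_ne_bot, Ne, LinearMap.range_eq_bot]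
    intro h0
    obtain ⟨f, hf, hne⟩ := h
    have := LinearMap.congr_fun h0 ⟨f, hf⟩
    simp only [LinearMap.domRestrict_apply, LinearMap.sub_apply, LinearMap.proj_apply,
      LinearMap.zero_apply, sub_eq_zero] at this
    exact hne this
  omega

theorem c_anti {X Y : Setoid α} (h : X ≤ Y) : c Y ≤ c X :=
  Submodule.finrank_mono (V_anti h)

theorem c_merge {X : Setoid α} {a b : α} (h : ¬ X a b) : c (merge X a b) + 1 = c X := by
  unfold c
  rw [V_merge]
  exact finrank_inf_K_lt _ _ _ (exists_ne_of_not h)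

theorem c_merge_sup (X Y : Setoid α) (a b : α) : c (X ⊔ Y) ≤ c (merge X a b ⊔ Y) + 1 := by
  unfold c
  rw [V_sup, V_sup, V_merge]
  have h : V X ⊓ K a b ⊓ V Y = V X ⊓ V Y ⊓ K a b := by
    rw [inf_assoc, inf_comm (K a b), ← inf_assoc]
  rw [h]
  exact finrank_le_inf_K _ _ _

/-! ### The distance -/

omit [Finite α] in
theorem Reach.trans {i j : ℕ} {X Y Z : Setoid α} (h : Reach i X Y) (h' : Reach j Y Z) :
    Reach (i + j) X Z := by
  induction i generalizing X with
  | zero =>
    rw [Nat.zero_add]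
    have : X = Y := h
    rwa [this]
  | succ i ih =>
    obtain ⟨W, hW, hWY⟩ := h
    rw [Nat.add_right_comm]
    exact ⟨W, hW, ih hWY⟩

omit [Finite α] in
theorem Reach.one {X Y : Setoid α} (h : Split X Y ∨ Join X Y) : Reach 1 X Y := ⟨Y, h, rfl⟩

theorem reach_of_le {X Z : Setoid α} (h : X ≤ Z) :
    Reach (c X - c Z) X Z ∧ Reach (c X - c Z) Z X := by
  induction hk : c X - c Z generalizing X with
  | zero =>
    have hXZ : X = Z := by
      by_contra hne
      have : ∃ a b, Z a b ∧ ¬ X a b := by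
        by_contra hcon
        push Not at hcon
        exact hne (le_antisymm h fun a b hab => hcon a b hab)
      obtain ⟨a, b, hZ, hX⟩ := this
      have h1 := c_merge hX
      have h2 := c_anti (merge_le h hZ)
      omega
    subst hXZ
    exact ⟨rfl, rfl⟩
  | succ k ih =>
    have hne : X ≠ Z := by
      rintro rfl
      omega
    have : ∃ a b, Z a b ∧ ¬ X a b := by
      by_contra hcon
      push Not at hcon
      exact hne (le_antisymm h fun a b hab => hcon a b hab)
    obtain ⟨a, b, hZ, hX⟩ := this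
    have h1 := c_merge hX
    have h2 := c_anti (merge_le h hZ)
    obtain ⟨h3, h4⟩ := ih (merge_le h hZ) (by omega)
    have hj := join_merge hX
    refine ⟨⟨_, Or.inr hj, h3⟩, ?_⟩
    exact h4.trans (Reach.one (Or.inl hj.split))

theorem reach_lower {k : ℕ} {X Y : Setoid α} (h : Reach k X Y) :
    c X + c Y ≤ k + 2 * c (X ⊔ Y) := by
  induction k generalizing X with
  | zero =>
    have : X = Y := h
    subst this
    rw [sup_idem]
    omega
  | succ k ih =>
    obtain ⟨Z, hZ, hZY⟩ := h
    have h1 := ih hZY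
    rcases hZ with hZ | hZ
    · obtain ⟨a, b, hab, rfl⟩ := hZ.join.exists_merge
      have h2 := c_merge hab
      have h3 := c_merge_sup Z Y a b
      omega
    · obtain ⟨a, b, hab, rfl⟩ := hZ.exists_merge
      have h2 := c_merge hab
      have h3 : c (merge X a b ⊔ Y) ≤ c (X ⊔ Y) := c_anti (sup_le_sup_right (le_merge X a b) Y)
      omega

theorem exists_reach (X Y : Setoid α) : Reach ((c X - c (X ⊔ Y)) + (c Y - c (X ⊔ Y))) X Y :=
  (reach_of_le (le_sup_left : X ≤ X ⊔ Y)).1.trans (reach_of_le (le_sup_right : Y ≤ X ⊔ Y)).2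

theorem dist_eq (X Y : Setoid α) : dist X Y + 2 * c (X ⊔ Y) = c X + c Y := by
  have h1 := c_anti (le_sup_left : X ≤ X ⊔ Y)
  have h2 := c_anti (le_sup_right : Y ≤ X ⊔ Y)
  have h3 : dist X Y ≤ (c X - c (X ⊔ Y)) + (c Y - c (X ⊔ Y)) := Nat.sInf_le (exists_reach X Y)
  have h4 : Reach (dist X Y) X Y := Nat.sInf_mem (s := {k | Reach k X Y}) ⟨_, exists_reach X Y⟩
  have h5 := reach_lower h4
  omega

end Pool.Agent.H619R2.PM
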