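import Pool.Agent.H619R2.PM.Gadget
import Pool.Agent.NPC.Sat

/-!
# The reduction from 3SAT
-/

namespace Pool.Agent.H619R2.PM

open Pool.Agent.NPC

/-- The partition of `{0, …, n-1}` with label vector `X`: `i` and `j` are in the same class if and
only if the `i`-th and the `j`-th label are equal. -/
def part (n : ℕ) (X : List ℕ) : Setoid (Fin n) := Setoid.ker (fun i : Fin n => X.getD i 0)

/-- The sum of the distances of `Y` to the given partitions. -/
noncomputable def cost (n : ℕ) (Xs : List (List ℕ)) (Y : Setoid (Fin n)) : ℕ :=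
  (Xs.map (fun X => dist (part n X) Y)).sum

theorem part_range {n : ℕ} (L : ℕ → ℕ) (u v : Fin n) :
    part n ((List.range n).map L) u v ↔ L u = L v := by
  have h : ∀ w : Fin n, ((List.range n).map L).getD w 0 = L w := by
    intro w
    rw [List.getD_eq_getElem?_getD, List.getElem?_map, List.getElem?_range w.2]
    rfl
  change ((List.range n).map L).getD u 0 = ((List.range n).map L).getD v 0 ↔ _
  rw [h, h]

theorem mem_V_part {n : ℕ} {L : ℕ → ℕ} (hL : ∀ u < n, L u < n) (hLL : ∀ u < n, L (L u) = L u)
    (f : Fin n → ℚ) : f ∈ V (part n ((List.range n).map L)) ↔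
      ∀ u : Fin n, f u = f ⟨L u, hL _ u.2⟩ := by
  constructor
  · intro h u
    exact h _ _ ((part_range L _ _).2 (hLL _ u.2).symm)
  · intro h u v huv
    rw [part_range] at huv
    rw [h u, h v]
    congr 1
    exact Fin.ext huv

/-- The gadgets: `x` owns `4x, 4x+1, 4x+2, 4x+3`. -/
def gad (g : ℕ) : Gad (Fin g) (Fin (4 * g)) where
  a x := ⟨4 * x, by omega⟩
  b x := ⟨4 * x + 1, by omega⟩
  c x := ⟨4 * x + 2, by omega⟩
  d x := ⟨4 * x + 3, by omega⟩
  gd u := ⟨u / 4, by omega⟩
  ga x := Fin.ext (by simp)
  gb x := Fin.ext (by simp only; omega)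
  gc x := Fin.ext (by simp only; omega)
  gdd x := Fin.ext (by simp only; omega)
  cover u := by
    simp only [Fin.ext_iff]
    omega
  ab x := by simp only [ne_eq, Fin.ext_iff]; omega
  ac x := by simp only [ne_eq, Fin.ext_iff]; omega
  ad x := by simp only [ne_eq, Fin.ext_iff]; omega
  bc x := by simp only [ne_eq, Fin.ext_iff]; omega
  bd x := by simp only [ne_eq, Fin.ext_iff]; omega
  cd x := by simp only [ne_eq, Fin.ext_iff]; omega

/-- labels: pairs `ab`, `cd` (for `true`) or `bc`, `da` (for `false`) -/
def lab (t : Bool) (u : ℕ) : ℕ :=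
  if t = true then 2 * (u / 2) else if u % 4 = 3 then u - 3 else if u % 4 = 2 then u - 1 else u

/-- the label vector of an assignment -/
def vst (g : ℕ) (τ : ℕ → Bool) : List ℕ := (List.range (4 * g)).map (fun u => lab (τ (u / 4)) u)

theorem lab_div (t : Bool) (u : ℕ) : lab t u / 4 = u / 4 := by
  unfold lab
  split_ifs <;> omega

theorem lab_lab (t : Bool) (u : ℕ) : lab t (lab t u) = lab t u := by
  unfold lab
  split_ifs <;> omega

theorem lab_lt {g : ℕ} (t : Bool) {u : ℕ} (h : u < 4 * g) : lab t u < 4 * g := by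
  have := lab_div t u
  omega

theorem isSt_vst (g : ℕ) (τ : ℕ → Bool) :
    (gad g).IsSt (fun x => τ x) (part (4 * g) (vst g τ)) := by
  have hval : ∀ (x : Fin g) (j : ℕ), j < 4 → (4 * (x : ℕ) + j) / 4 = x := by
    intro x j hj
    omega
  constructor
  · intro f
    unfold vst
    rw [mem_V_part (L := fun u => lab (τ (u / 4)) u) (fun u hu => lab_lt _ hu) (fun u hu => by
      rw [lab_div, lab_lab])]
    constructor
    · intro h x
      have hb := h ((gad g).b x)
      have hc := h ((gad g).c x)
      have hd := h ((gad g).d x)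
      simp only [gad] at hb hc hd
      simp only [gad]
      have e1 := hval x 1 (by omega)
      have e2 := hval x 2 (by omega)
      have e3 := hval x 3 (by omega)
      simp only [e1, e2, e3] at hb hc hd
      constructor
      · intro hx
        rw [hb, hd]
        constructor
        · congr 1
          simp only [Fin.mk.injEq, lab, hx, if_true]
          omega
        · congr 1
          simp only [Fin.mk.injEq, lab, hx, if_true]
          omega
      · intro hx
        rw [hc, hd]
        constructor
        · congr 1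
          simp only [Fin.mk.injEq, lab, hx, Bool.false_eq_true, if_false]
          rw [if_neg (by omega), if_pos (by omega)]
          omega
        · congr 1
          simp only [Fin.mk.injEq, lab, hx, Bool.false_eq_true, if_false]
          rw [if_pos (by omega)]
          omega
    · intro h u
      have hx := h ((gad g).gd u)
      simp only [gad] at hx
      have h4 : (u : ℕ) % 4 = 0 ∨ (u : ℕ) % 4 = 1 ∨ (u : ℕ) % 4 = 2 ∨ (u : ℕ) % 4 = 3 := by omega
      cases ht : τ ((u : ℕ) / 4) with
      | true =>
        have hx := hx.1 ht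
        rcases h4 with k | k | k | k
        · congr 1
          apply Fin.ext
          simp only [lab, if_true]
          omega
        · convert hx.1.symm using 2
          · apply Fin.ext
            simp only
            omega
          · simp only [Fin.mk.injEq, lab, if_true]
            omega
        · congr 1
          apply Fin.ext
          simp only [lab, if_true]
          omega
        · convert hx.2.symm using 2
          · apply Fin.ext
            simp only
            omega
          · simp only [Fin.mk.injEq, lab, if_true]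
            omega
      | false =>
        have hx := hx.2 ht
        rcases h4 with k | k | k | k
        · congr 1
          apply Fin.ext
          simp only [lab, Bool.false_eq_true, if_false]
          rw [if_neg (by omega), if_neg (by omega)]
        · congr 1
          apply Fin.ext
          simp only [lab, Bool.false_eq_true, if_false]
          rw [if_neg (by omega), if_neg (by omega)]
        · convert hx.1.symm using 2
          · apply Fin.ext
            simp only
            omega
          · simp only [Fin.mk.injEq, lab, Bool.false_eq_true, if_false]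
            rw [if_neg (by omega), if_pos (by omega)]
            omega
        · convert hx.2 using 2
          · apply Fin.ext
            simp only
            omega
          · simp only [Fin.mk.injEq, lab, Bool.false_eq_true, if_false]
            rw [if_pos (by omega)]
            omega
  · intro u v h
    rw [vst, part_range] at h
    apply Fin.ext
    change (u : ℕ) / 4 = (v : ℕ) / 4
    rw [← lab_div (τ ((u : ℕ) / 4)) u, h, lab_div]
  · intro x h
    rw [vst, part_range] at h
    simp only [gad] at h
    have e0 := hval x 0 (by omega)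
    have e2 := hval x 2 (by omega)
    rw [Nat.add_zero] at e0
    rw [e0, e2] at h
    unfold lab at h
    split_ifs at h <;> omega

/-! ### Reward partitions -/

/-- the first of the two elements used by a literal; the second one is the next number -/
def S (t : Bool) (x : ℕ) : ℕ := if t = true then 4 * x else 4 * x + 1

theorem S_eq (t : Bool) (x : ℕ) : S t x = 4 * x ∨ S t x = 4 * x + 1 := by
  unfold S
  split_ifs <;> simp

/-- labels of a reward partition -/
def rlab (s1 s2 s3 u : ℕ) : ℕ :=
  if u = s2 then s1 + 1 else if u = s3 then s2 + 1 else if u = s1 then s3 + 1 else u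

/-- label vector of a reward partition, with the classes `{s1+1,s2}`, `{s2+1,s3}`, `{s3+1,s1}` -/
def rv (n s1 s2 s3 : ℕ) : List ℕ := (List.range n).map (rlab s1 s2 s3)

/-- the first element of a literal -/
def sE {g : ℕ} (t : Bool) {x : ℕ} (h : x < g) : Fin (4 * g) :=
  ⟨S t x, by rcases S_eq t x with e | e <;> omega⟩

/-- the second element of a literal -/
def eE {g : ℕ} (t : Bool) {x : ℕ} (h : x < g) : Fin (4 * g) :=
  ⟨S t x + 1, by rcases S_eq t x with e | e <;> omega⟩

section RV

variable {g x1 x2 x3 : ℕ} (t1 t2 t3 : Bool) (h1 : x1 < g) (h2 : x2 < g) (h3 : x3 < g)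
  (h12 : x1 ≠ x2) (h13 : x1 ≠ x3) (h23 : x2 ≠ x3)

theorem gd_sE (t : Bool) {x : ℕ} (h : x < g) : (gad g).gd (sE t h) = ⟨x, h⟩ := by
  apply Fin.ext
  change S t x / 4 = x
  rcases S_eq t x with e | e <;> omega

theorem gd_eE (t : Bool) {x : ℕ} (h : x < g) : (gad g).gd (eE t h) = ⟨x, h⟩ := by
  apply Fin.ext
  change (S t x + 1) / 4 = x
  rcases S_eq t x with e | e <;> omega

include h1 h2 h3 h12 h13 h23

theorem V_rv : V (part (4 * g) (rv (4 * g) (S t1 x1) (S t2 x2) (S t3 x3))) =
    K (eE t1 h1) (sE t2 h2) ⊓ K (eE t2 h2) (sE t3 h3) ⊓ K (eE t3 h3) (sE t1 h1) := by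
  have hL : ∀ u < 4 * g, rlab (S t1 x1) (S t2 x2) (S t3 x3) u < 4 * g := by
    intro u hu
    unfold rlab
    rcases S_eq t1 x1 with e1 | e1 <;> rcases S_eq t2 x2 with e2 | e2 <;>
      rcases S_eq t3 x3 with e3 | e3 <;> split_ifs <;> omega
  have hLL : ∀ u < 4 * g, rlab (S t1 x1) (S t2 x2) (S t3 x3)
      (rlab (S t1 x1) (S t2 x2) (S t3 x3) u) = rlab (S t1 x1) (S t2 x2) (S t3 x3) u := by
    intro u hu
    unfold rlab
    rcases S_eq t1 x1 with e1 | e1 <;> rcases S_eq t2 x2 with e2 | e2 <;>
      rcases S_eq t3 x3 with e3 | e3 <;> split_ifs <;> omega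
  ext f
  rw [rv, mem_V_part hL hLL, Submodule.mem_inf, Submodule.mem_inf, mem_K, mem_K, mem_K]
  have n12 : S t1 x1 ≠ S t2 x2 := by
    rcases S_eq t1 x1 with e1 | e1 <;> rcases S_eq t2 x2 with e2 | e2 <;> omega
  have n13 : S t1 x1 ≠ S t3 x3 := by
    rcases S_eq t1 x1 with e1 | e1 <;> rcases S_eq t3 x3 with e2 | e2 <;> omega
  have n23 : S t2 x2 ≠ S t3 x3 := by
    rcases S_eq t2 x2 with e1 | e1 <;> rcases S_eq t3 x3 with e2 | e2 <;> omega
  constructor
  · intro h
    have k1 := h (sE t2 h2)
    have k2 := h (sE t3 h3)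
    have k3 := h (sE t1 h1)
    simp only [sE, rlab, if_true, if_neg n12, if_neg n13, if_neg n23.symm] at k1 k2 k3
    exact ⟨⟨k1.symm, k2.symm⟩, k3.symm⟩
  · rintro ⟨⟨k1, k2⟩, k3⟩ u
    by_cases u2 : (u : ℕ) = S t2 x2
    · have e : u = sE t2 h2 := Fin.ext u2
      rw [e, ← k1]
      congr 1
      apply Fin.ext
      simp only [eE, sE, rlab, if_true]
    · by_cases u3 : (u : ℕ) = S t3 x3
      · have e : u = sE t3 h3 := Fin.ext u3
        rw [e, ← k2]
        congr 1
        apply Fin.ext
        simp only [eE, sE, rlab, if_neg n23.symm, if_true]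
      · by_cases u1 : (u : ℕ) = S t1 x1
        · have e : u = sE t1 h1 := Fin.ext u1
          rw [e, ← k3]
          congr 1
          apply Fin.ext
          simp only [eE, sE, rlab, if_neg n12, if_neg n13, if_true]
        · congr 1
          apply Fin.ext
          simp only [rlab, if_neg u1, if_neg u2, if_neg u3]

/-- distance to a reward partition -/
theorem dist_rv (Y : Setoid (Fin (4 * g))) :
    dist (part (4 * g) (rv (4 * g) (S t1 x1) (S t2 x2) (S t3 x3))) Y +
      2 * c (part (4 * g) (rv (4 * g) (S t1 x1) (S t2 x2) (S t3 x3)) ⊔ Y) + 3 =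
      4 * g + c Y := by
  have k1 := dist_eq (part (4 * g) (rv (4 * g) (S t1 x1) (S t2 x2) (S t3 x3))) Y
  have k2 := (gad g).c_reward (V_rv t1 t2 t3 h1 h2 h3 h12 h13 h23)
    (by rw [gd_sE, gd_eE]) (by rw [gd_sE, gd_eE]) (by rw [gd_sE, gd_eE])
    (by rw [gd_sE, gd_sE]; simpa using h12) (by rw [gd_sE, gd_sE]; simpa using h13)
    (by rw [gd_sE, gd_sE]; simpa using h23)
    (by simp [sE, eE])
  rw [Nat.card_eq_fintype_card, Fintype.card_fin] at k2
  omega

theorem dist_rv_le (Y : Setoid (Fin (4 * g))) :
    dist (part (4 * g) (rv (4 * g) (S t1 x1) (S t2 x2) (S t3 x3))) Y + c Y ≤ 4 * g + 3 := by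
  have k1 := dist_rv t1 t2 t3 h1 h2 h3 h12 h13 h23 Y
  have k2 := Gad.reward_ge (V_rv t1 t2 t3 h1 h2 h3 h12 h13 h23) Y
  omega

theorem dist_rv_le' {Y : Setoid (Fin (4 * g))} (y1 : Y (sE t1 h1) (eE t1 h1))
    (y2 : Y (sE t2 h2) (eE t2 h2)) (y3 : Y (sE t3 h3) (eE t3 h3)) :
    dist (part (4 * g) (rv (4 * g) (S t1 x1) (S t2 x2) (S t3 x3))) Y + c Y ≤ 4 * g + 1 := by
  have k1 := dist_rv t1 t2 t3 h1 h2 h3 h12 h13 h23 Y
  have k2 := Gad.reward_ge' (V_rv t1 t2 t3 h1 h2 h3 h12 h13 h23) y1 y2 y3
  omega

theorem dist_rv_ge {Y : Setoid (Fin (4 * g))} (hY : (gad g).Resp Y) :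
    4 * g + 1 ≤ dist (part (4 * g) (rv (4 * g) (S t1 x1) (S t2 x2) (S t3 x3))) Y + c Y := by
  have k1 := dist_rv t1 t2 t3 h1 h2 h3 h12 h13 h23 Y
  have k2 := (gad g).reward_le (V_rv t1 t2 t3 h1 h2 h3 h12 h13 h23)
    (by rw [gd_sE, gd_eE]) (by rw [gd_sE, gd_eE]) (by rw [gd_sE, gd_eE])
    (by rw [gd_sE, gd_sE]; simpa using h12) (by rw [gd_sE, gd_sE]; simpa using h13)
    (by rw [gd_sE, gd_sE]; simpa using h23) hY
  omega

theorem dist_rv_gt {Y : Setoid (Fin (4 * g))} (hY : (gad g).Resp Y)
    (hn : ¬ (Y (sE t1 h1) (eE t1 h1) ∧ Y (sE t2 h2) (eE t2 h2) ∧ Y (sE t3 h3) (eE t3 h3))) :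
    4 * g + 3 ≤ dist (part (4 * g) (rv (4 * g) (S t1 x1) (S t2 x2) (S t3 x3))) Y + c Y := by
  have k1 := dist_rv t1 t2 t3 h1 h2 h3 h12 h13 h23 Y
  have k2 := (gad g).reward_lt (V_rv t1 t2 t3 h1 h2 h3 h12 h13 h23)
    (by rw [gd_sE, gd_eE]) (by rw [gd_sE, gd_eE]) (by rw [gd_sE, gd_eE])
    (by rw [gd_sE, gd_sE]; simpa using h12) (by rw [gd_sE, gd_sE]; simpa using h13)
    (by rw [gd_sE, gd_sE]; simpa using h23) hY hn
  omega

end RV

/-! ### Clauses -/

/-- Which of the literals are false, for the seven ways of satisfying a clause. -/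
def masks : List (Bool × Bool × Bool) :=
  [(false, false, false), (false, false, true), (false, true, false), (false, true, true),
    (true, false, false), (true, false, true), (true, true, false)]

/-- The reward partition of a clause and a mask. -/
def rvc (n : ℕ) (c : Lit ℕ × Lit ℕ × Lit ℕ) (k : Bool × Bool × Bool) : List ℕ :=
  rv n (S (xor c.1.1 k.1) c.1.2) (S (xor c.2.1.1 k.2.1) c.2.1.2) (S (xor c.2.2.1 k.2.2) c.2.2.2)

theorem masks_ge (D : Bool × Bool × Bool → ℕ) (w : Bool × Bool × Bool) (A : ℕ)
    (h : ∀ k, k ≠ w → A ≤ D k) (h' : ∀ k, A ≤ D k + 2) : 7 * A ≤ (masks.map D).sum + 2 := by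
  obtain ⟨w1, w2, w3⟩ := w
  have e1 := h (false, false, false)
  have e2 := h (false, false, true)
  have e3 := h (false, true, false)
  have e4 := h (false, true, true)
  have e5 := h (true, false, false)
  have e6 := h (true, false, true)
  have e7 := h (true, true, false)
  have f1 := h' (false, false, false)
  have f2 := h' (false, false, true)
  have f3 := h' (false, true, false)
  have f4 := h' (false, true, true)
  have f5 := h' (true, false, false)
  have f6 := h' (true, false, true)
  have f7 := h' (true, true, false)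
  simp only [masks, List.map_cons, List.map_nil, List.sum_cons, List.sum_nil]
  cases w1 <;> cases w2 <;> cases w3 <;> simp at e1 e2 e3 e4 e5 e6 e7 <;> omega

theorem masks_ge' (D : Bool × Bool × Bool → ℕ) (A : ℕ)
    (h : ∀ k, k ≠ (true, true, true) → A ≤ D k) : 7 * A ≤ (masks.map D).sum := by
  have e1 := h (false, false, false) (by simp)
  have e2 := h (false, false, true) (by simp)
  have e3 := h (false, true, false) (by simp)
  have e4 := h (false, true, true) (by simp)
  have e5 := h (true, false, false) (by simp)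
  have e6 := h (true, false, true) (by simp)
  have e7 := h (true, true, false) (by simp)
  simp only [masks, List.map_cons, List.map_nil, List.sum_cons, List.sum_nil]
  omega

theorem masks_le (D : Bool × Bool × Bool → ℕ) (w : Bool × Bool × Bool) (A : ℕ)
    (h : ∀ k, D k ≤ A) (h' : D w + 2 ≤ A) (hw : w ≠ (true, true, true)) :
    (masks.map D).sum + 2 ≤ 7 * A := by
  obtain ⟨w1, w2, w3⟩ := w
  have e1 := h (false, false, false)
  have e2 := h (false, false, true)
  have e3 := h (false, true, false)
  have e4 := h (false, true, true)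
  have e5 := h (true, false, false)
  have e6 := h (true, false, true)
  have e7 := h (true, true, false)
  simp only [masks, List.map_cons, List.map_nil, List.sum_cons, List.sum_nil]
  cases w1 <;> cases w2 <;> cases w3 <;> first | omega | exact absurd rfl hw

end Pool.Agent.H619R2.PM
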